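import Pool.Agent.VMX.StmtsB

/-!
# VMX squad (MP_e54c4c_gt), row SLN: the slices of the next family
-/

set_option autoImplicit false

open Matrix Filter Topology

namespace Pool.Agent.VMX.H21

open Pool.Agent.PFS Pool.Agent.PFJ Pool.Agent.NBT Pool.Agent.VMX

theorem sln (h1 : SlbStmt) (h2 : SldStmt) (h3 : QmfStmt) : SlnStmt := by
  intro n C Γ K p J c hSL j hjp hjJ d hd
  have hcc : CC C Γ := hSL.cc
  have hK : 3 ≤ K := hSL.three
  have hmax : MaxCard C Γ K := hSL.maxc
  have hpJ : p ∉ J := hSL.pJ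
  have hpJ' : p ∉ insert j J := by
    rw [Finset.mem_insert]
    rintro (h | h)
    · exact hjp h.symm
    · exact hpJ h
  have hcm : ∀ m ∈ J, Function.update c j d m = c m := by
    intro m hm
    refine Function.update_of_ne ?_ _ _
    rintro rfl
    exact hjJ hm
  obtain ⟨hPP, hFAM, -, -⟩ := h3 n C Γ hcc K hK hmax p (insert j J) (Function.update c j d) hpJ'
  have hsub : ∀ z, QM C Γ p (insert j J) (Function.update c j d) z → QM C Γ p J c z := by
    rintro z ⟨S, hS, hz⟩
    refine ⟨S, ⟨hS.1, ?_⟩, hz⟩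
    intro z' hz' m hm
    obtain ⟨E, hE1, hE2, hE3⟩ := hS.2 z' hz' m (Finset.mem_insert_of_mem hm)
    rw [hcm m hm] at hE2
    exact ⟨E, hE1, hE2, hE3⟩
  obtain ⟨F, hF⟩ : ∃ F, F = QM C Γ p J c := ⟨_, rfl⟩
  obtain ⟨F', hF'⟩ : ∃ F', F' = QM C Γ p (insert j J) (Function.update c j d) := ⟨_, rfl⟩
  rw [← hF] at hSL hd hsub
  rw [← hF'] at hPP hFAM hsub ⊢
  have hTm : ∀ m z h, Tm C F' p m z h → Tm C F p m z h := fun m z h hh => ⟨hsub _ hh.1, hh.2⟩
  -- the box of `PP` inside the slice of a family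
  have key : ∀ z, F' z → ∀ m ∈ insert j J, ∃ E : Submodule ℝ (V n), IB C z {p, m} E ∧
      Module.finrank ℝ E = Function.update c j d m ∧
      (∀ h, PCO.Bd C E h → (∀ a : ℝ, h ≠ a • z m) → Tm C F' p m z h) ∧
      E ≤ Es C F' p m z := by
    intro z hz m hm
    obtain ⟨E, hE1, hE2, hE3⟩ := hPP.2 z hz m hm
    have hpm : p ≠ m := by
      rintro rfl
      exact hpJ' hm
    have hpes := hPP.1 z hz
    have hb := (h1 n C Γ hcc K hK hmax z hpes p m hpm E hE1).1
    have hmv : ∀ h, PCO.Bd C E h → (∀ a : ℝ, h ≠ a • z m) → Tm C F' p m z h := by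
      intro h hh ha
      exact ⟨hE3 h hh ha, hb h hh.1⟩
    refine ⟨E, hE1, hE2, hmv, ?_⟩
    rw [(h2 n C Γ hcc K hK hmax z hpes p m hpm E hE1).2]
    refine Submodule.span_mono ?_
    rintro h (hh | hh)
    · exact Or.inl hh
    · exact Or.inr (hmv h hh.1 hh.2)
  have hEs : ∀ z m, Es C F' p m z ≤ Es C F p m z := by
    intro z m
    refine Submodule.span_mono ?_
    rintro h (hh | hh)
    · exact Or.inl hh
    · exact Or.inr (hTm m z h hh)
  -- the old directions
  have hold : ∀ z, F' z → ∀ m ∈ J, (∀ h, Tm C F' p m z h ↔ Tm C F p m z h) ∧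
      Es C F' p m z = Es C F p m z := by
    intro z hz m hm
    obtain ⟨E, hE1, hE2, hE3, hE4⟩ := key z hz m (Finset.mem_insert_of_mem hm)
    rw [hcm m hm] at hE2
    have hEF : E = Es C F p m z := by
      refine Submodule.eq_of_le_of_finrank_eq (hE4.trans (hEs z m)) ?_
      rw [hE2, hSL.dim z (hsub z hz) m hm]
    have hiff : ∀ h, Tm C F' p m z h ↔ Tm C F p m z h := by
      intro h
      refine ⟨hTm m z h, fun hh => ?_⟩
      obtain ⟨hb1, hb2⟩ := (hSL.bd z (hsub z hz) m hm h).1 hh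
      rw [← hEF] at hb1
      exact hE3 h hb1 hb2
    refine ⟨hiff, le_antisymm (hEs z m) ?_⟩
    rw [← hEF]
    exact hE4
  -- the new direction
  have hnew : ∀ z, F' z → IB C z {p, j} (Es C F' p j z) ∧
      Module.finrank ℝ (Es C F' p j z) = d ∧
      ∀ h, Tm C F' p j z h ↔ (PCO.Bd C (Es C F' p j z) h ∧ ∀ a : ℝ, h ≠ a • z j) := by
    intro z hz
    obtain ⟨E, hE1, hE2, hE3, hE4⟩ := key z hz j (Finset.mem_insert_self _ _)
    rw [Function.update_self] at hE2
    have hEF : E = Es C F' p j z := by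
      refine Submodule.eq_of_le_of_finrank_le hE4 ?_
      rw [hE2]
      exact (Submodule.finrank_mono (hEs z j)).trans (hd z (hsub z hz))
    rw [← hEF]
    refine ⟨hE1, hE2, ?_⟩
    intro h
    constructor
    · intro hh
      have hmem : h ∈ E := by
        rw [hEF]
        exact Submodule.subset_span (Or.inr hh)
      exact (h1 n C Γ hcc K hK hmax z (hPP.1 z hz) p j hjp.symm E hE1).2.2.1 h hmem
        (hPP.1 _ hh.1)
    · rintro ⟨hh, ha⟩
      exact hE3 h hh ha
  refine ⟨hFAM, hcc, hK, hmax, hpJ', ?_, ?_, ?_⟩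
  · intro z hz m hm
    rcases Finset.mem_insert.1 hm with rfl | hmJ
    · exact (hnew z hz).1
    · rw [(hold z hz m hmJ).2]
      exact hSL.box z (hsub z hz) m hmJ
  · intro z hz m hm
    rcases Finset.mem_insert.1 hm with rfl | hmJ
    · rw [Function.update_self]
      exact (hnew z hz).2.1
    · rw [(hold z hz m hmJ).2, hcm m hmJ]
      exact hSL.dim z (hsub z hz) m hmJ
  · intro z hz m hm h
    rcases Finset.mem_insert.1 hm with rfl | hmJ
    · exact (hnew z hz).2.2 h
    · rw [(hold z hz m hmJ).2, (hold z hz m hmJ).1 h]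
      exact hSL.bd z (hsub z hz) m hmJ h

end Pool.Agent.VMX.H21
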