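import Pool.Agent.VMX.StmtsA
import Pool.Agent.Helper80_NBT.ZLX

/-!
# VMX squad (MP_e54c4c_gt), row ZPX: existence of the zoom maps
-/

set_option autoImplicit false

open Matrix Filter Topology

namespace Pool.Agent.VMX.H21

open Pool.Agent.PFS Pool.Agent.PFJ Pool.Agent.NBT Pool.Agent.VMX
open Pool.Agent.NBT.H80 (lin_sub sl sl_apply nrm)

theorem zpx : ZpxStmt := by
  intro n C Γ h u R hu hR huR θ g s q hθ hg hs hq hlim
  have hP := h.toPCone
  obtain ⟨B, hB, hnrm⟩ := nrm hP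
  have hbd : ∀ᶠ k in atTop, ‖s k • act (g k) (Real.exp (θ k) • u + R)‖ < ‖q‖ + 1 :=
    hlim.norm.eventually_lt_const (by linarith)
  -- the general bound
  have key : ∀ (k : ℕ) (M : ℝ) (c : ℝ) (v : V n), 0 < M →
      ‖s k • act (g k) (Real.exp (θ k) • u + R)‖ < ‖q‖ + 1 →
      M • (Real.exp (θ k) • u + R) - c • v ∈ closure C →
      M • (Real.exp (θ k) • u + R) + c • v ∈ closure C →
      ‖(s k * c) • act (g k) v‖ ≤ B * (M * (‖q‖ + 1)) := by
    intro k M c v hM hm h6 h7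
    have h8 := (h.sact_cl_iff (hg k) (hs k)).mpr h6
    have h9 := (h.sact_cl_iff (hg k) (hs k)).mpr h7
    rw [CC.act_sub, CC.act_smul, CC.act_smul, smul_sub, smul_comm (s k) M] at h8
    rw [CC.act_add, CC.act_smul, CC.act_smul, smul_add, smul_comm (s k) M] at h9
    have h10 := hnrm _ _ h8 h9
    rw [mul_smul]
    refine h10.trans ?_
    rw [norm_smul, Real.norm_of_nonneg hM.le]
    gcongr
  have hbP : ∀ v ∈ (⊤ : Submodule ℝ (V n)), ∃ B' : ℝ,
      ∀ᶠ k in atTop, ‖sl (s k) (g k) v‖ ≤ B' := by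
    intro v _
    obtain ⟨M, hM, hM1, hM2⟩ := absorb_two hP huR v
    refine ⟨B * (M * (‖q‖ + 1)), ?_⟩
    filter_upwards [hbd, hθ.eventually_ge_atTop 0] with k hk hk0
    have he : 1 ≤ Real.exp (θ k) := Real.one_le_exp hk0
    have h4 : ∀ z : V n, M • (u + R) + z ∈ closure C →
        M • (Real.exp (θ k) • u + R) + z ∈ closure C := by
      intro z hz
      have h5 : M • (Real.exp (θ k) • u + R) + z =
          (M * (Real.exp (θ k) - 1)) • u + (M • (u + R) + z) := by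
        module
      rw [h5]
      exact hP.cl_add (hP.cl_smul hu (by nlinarith)) hz
    have h6 := h4 (-v) (by rw [← sub_eq_add_neg]; exact subset_closure hM1)
    have h7 := h4 v (subset_closure hM2)
    have := key k M 1 v hM hk (by rw [one_smul, sub_eq_add_neg]; exact h6)
      (by rw [one_smul]; exact h7)
    rw [mul_one] at this
    exact this
  obtain ⟨φ3, T, hφ3, hT⟩ := lin_sub ⊤ (fun k => sl (s k) (g k)) hbP
  have hθ3 : Tendsto (fun k => θ (φ3 k)) atTop atTop := hθ.comp hφ3.tendsto_atTop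
  have hbL : ∀ v ∈ sF C u, ∃ B' : ℝ, ∀ᶠ k in atTop,
      ‖sl (s (φ3 k) * Real.exp (θ (φ3 k))) (g (φ3 k)) v‖ ≤ B' := by
    intro v hv
    obtain ⟨M, hM, hM1, hM2⟩ := unt_two hP (fcs n C hP u hu).1 hv
    refine ⟨B * (M * (‖q‖ + 1)), ?_⟩
    filter_upwards [hφ3.tendsto_atTop.eventually hbd] with k hk
    have he : 0 < Real.exp (θ (φ3 k)) := Real.exp_pos _
    refine key (φ3 k) M _ v hM hk ?_ ?_
    · have h5 : M • (Real.exp (θ (φ3 k)) • u + R) - Real.exp (θ (φ3 k)) • v =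
          Real.exp (θ (φ3 k)) • (M • u - v) + M • R := by
        module
      rw [h5]
      exact hP.cl_add (hP.cl_smul hM1 he.le) (hP.cl_smul hR hM.le)
    · have h5 : M • (Real.exp (θ (φ3 k)) • u + R) + Real.exp (θ (φ3 k)) • v =
          Real.exp (θ (φ3 k)) • (M • u + v) + M • R := by
        module
      rw [h5]
      exact hP.cl_add (hP.cl_smul hM2 he.le) (hP.cl_smul hR hM.le)
  obtain ⟨φ4, L, hφ4, hL⟩ := lin_sub (sF C u)
    (fun k => sl (s (φ3 k) * Real.exp (θ (φ3 k))) (g (φ3 k))) hbL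
  have hφ : StrictMono (fun k => φ3 (φ4 k)) := hφ3.comp hφ4
  have huF : u ∈ sF C u := (fcs n C hP u hu).1.1
  have limT : ∀ (y : ℕ → V n) (y0 : V n), Tendsto y atTop (𝓝 y0) →
      Tendsto (fun k => s (φ3 (φ4 k)) • act (g (φ3 (φ4 k))) (y k)) atTop (𝓝 (T y0)) := by
    intro y y0 hy
    exact hT φ4 hφ4.tendsto_atTop y y0 (fun _ => Submodule.mem_top) hy
  have limL : ∀ (y : ℕ → V n) (y0 : V n), (∀ k, y k ∈ sF C u) → Tendsto y atTop (𝓝 y0) →
      Tendsto (fun k => (s (φ3 (φ4 k)) * Real.exp (θ (φ3 (φ4 k)))) •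
        act (g (φ3 (φ4 k))) (y k)) atTop (𝓝 (L y0)) := by
    intro y y0 hyD hy
    exact hL id tendsto_id y y0 hyD hy
  have hsum : L u + T R = q := by
    have h1 := (limL (fun _ => u) u (fun _ => huF) tendsto_const_nhds).add
      (limT (fun _ => R) R tendsto_const_nhds)
    have h2 : Tendsto (fun k => s (φ3 (φ4 k)) • act (g (φ3 (φ4 k)))
        (Real.exp (θ (φ3 (φ4 k))) • u + R)) atTop (𝓝 q) := hlim.comp hφ.tendsto_atTop
    refine tendsto_nhds_unique (h1.congr fun k => ?_) h2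
    rw [CC.act_add, CC.act_smul, smul_add, smul_smul]
  refine ⟨fun k => φ3 (φ4 k), T, L, hφ, ⟨fun k => hg _, fun k => hs _,
    hθ.comp hφ.tendsto_atTop, limT, limL, ?_⟩, hsum⟩
  rw [hsum]
  exact hq

end Pool.Agent.VMX.H21
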